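import Pool.Agent.U798.BV.Spec

/-!
# Project BV, package TIL: the resolvent measure
-/

set_option autoImplicit false

open MeasureTheory Filter Topology

namespace Pool.Agent.U338.BV

/-- the weights -/
noncomputable def ww (p q : ℕ) (ij : ℕ × ℕ) : ℝ := ((p : ℝ) ^ ij.1 * (q : ℝ) ^ ij.2)⁻¹

lemma ww_nonneg (p q : ℕ) (ij : ℕ × ℕ) : 0 ≤ ww p q ij := by unfold ww; positivity

lemma ww_summable {p q : ℕ} (hp : 2 ≤ p) (hq : 2 ≤ q) : Summable (ww p q) := by
  have hp' : (2 : ℝ) ≤ p := by exact_mod_cast hp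
  have hq' : (2 : ℝ) ≤ q := by exact_mod_cast hq
  have h1 : Summable fun i : ℕ => ((p : ℝ)⁻¹) ^ i :=
    summable_geometric_of_lt_one (by positivity) (inv_lt_one_of_one_lt₀ (by linarith))
  have h2 : Summable fun i : ℕ => ((q : ℝ)⁻¹) ^ i :=
    summable_geometric_of_lt_one (by positivity) (inv_lt_one_of_one_lt₀ (by linarith))
  have h3 := h1.mul_of_nonneg h2 (fun i => by positivity) (fun i => by positivity)
  refine h3.congr fun ij => ?_
  unfold ww
  rw [mul_inv, inv_pow, inv_pow]

/-- the dilation -/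
def TT (p q : ℕ) (ij : ℕ × ℕ) (t : ℝ) : ℝ := (p : ℝ) ^ ij.1 * (q : ℝ) ^ ij.2 * t

lemma TT_meas (p q : ℕ) (ij : ℕ × ℕ) : Measurable (TT p q ij) := by unfold TT; fun_prop

/-- the resolvent measure -/
noncomputable def Th (p q : ℕ) (θ : Measure ℝ) : Measure ℝ :=
  Measure.sum fun ij : ℕ × ℕ => ENNReal.ofReal (ww p q ij) • θ.map (TT p q ij)

lemma Th_finite {p q : ℕ} (hp : 2 ≤ p) (hq : 2 ≤ q) (θ : Measure ℝ) [IsFiniteMeasure θ] :
    IsFiniteMeasure (Th p q θ) := by
  constructor
  unfold Th
  rw [Measure.sum_apply _ MeasurableSet.univ]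
  have h1 : ∀ ij : ℕ × ℕ, (ENNReal.ofReal (ww p q ij) • θ.map (TT p q ij)) Set.univ =
      ENNReal.ofReal (ww p q ij) * θ Set.univ := by
    intro ij
    rw [Measure.smul_apply, Measure.map_apply (TT_meas p q ij) MeasurableSet.univ]
    simp
  simp_rw [h1]
  rw [ENNReal.tsum_mul_right, ← ENNReal.ofReal_tsum_of_nonneg (ww_nonneg p q) (ww_summable hp hq)]
  exact ENNReal.mul_lt_top ENNReal.ofReal_lt_top (measure_lt_top θ _)

lemma Th_hasSum {E : Type} [NormedAddCommGroup E] [NormedSpace ℝ E] [MeasurableSpace E] [BorelSpace E]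
    [SecondCountableTopology E] {p q : ℕ} (hp : 2 ≤ p) (hq : 2 ≤ q)
    (θ : Measure ℝ) [IsFiniteMeasure θ] (F : ℝ → E) (hF : Measurable F) (B : ℝ)
    (hB : ∀ t, ‖F t‖ ≤ B) :
    HasSum (fun ij : ℕ × ℕ => ww p q ij • ∫ t, F (TT p q ij t) ∂θ) (∫ t, F t ∂(Th p q θ)) := by
  have := Th_finite hp hq θ
  have hint : Integrable F (Th p q θ) :=
    Integrable.of_bound hF.aestronglyMeasurable B (Eventually.of_forall hB)
  have h := hasSum_integral_measure (μ := fun ij : ℕ × ℕ =>
    ENNReal.ofReal (ww p q ij) • θ.map (TT p q ij)) (f := F) hint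
  have h2 : ∀ ij : ℕ × ℕ, ∫ t, F t ∂(ENNReal.ofReal (ww p q ij) • θ.map (TT p q ij)) =
      ww p q ij • ∫ t, F (TT p q ij t) ∂θ := by
    intro ij
    rw [integral_smul_measure, ENNReal.toReal_ofReal (ww_nonneg p q ij),
      integral_map (TT_meas p q ij).aemeasurable hF.aestronglyMeasurable]
  simp_rw [h2] at h
  exact h

lemma tele {u : ℕ → ℝ} (hu : Summable u) : HasSum (fun j => u j - u (j + 1)) (u 0) := by
  have h1 := hu.hasSum
  have h2 : HasSum (fun j => u (j + 1)) ((∑' j, u j) - u 0) := by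
    have := (hasSum_nat_add_iff' 1).2 h1
    simpa using this
  have h3 := h1.sub h2
  simpa using h3

lemma int4 (θ : Measure ℝ) (u v w x : ℝ → ℝ) (a b c : ℝ) (hu : Integrable u θ) (hv : Integrable v θ)
    (hw : Integrable w θ) (hx : Integrable x θ) :
    ∫ t, (u t - v t / a - w t / b + x t / c) ∂θ =
      (∫ t, u t ∂θ) - (∫ t, v t ∂θ) / a - (∫ t, w t ∂θ) / b + (∫ t, x t ∂θ) / c := by
  have h1 : Integrable (fun t => u t - v t / a) θ := hu.sub (hv.div_const a)
  have h2 : Integrable (fun t => u t - v t / a - w t / b) θ := h1.sub (hw.div_const b)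
  rw [integral_add h2 (hx.div_const c), integral_sub h1 (hw.div_const b),
    integral_sub hu (hv.div_const a), integral_div, integral_div, integral_div]

theorem t_TIL : Pool.Agent.U798.BV.S_TIL := by
  intro p q hp hq θ hθ
  have hp0 : (p : ℝ) ≠ 0 := by positivity
  have hq0 : (q : ℝ) ≠ 0 := by positivity
  refine ⟨Th p q θ, Th_finite hp hq θ, ?_, ?_⟩
  · rintro F hF ⟨B, hB⟩
    have h := Th_hasSum hp hq θ F hF B hB
    have he : (fun ij : ℕ × ℕ => ((p : ℂ) ^ ij.1 * (q : ℂ) ^ ij.2)⁻¹ *
        ∫ t, F ((p : ℝ) ^ ij.1 * (q : ℝ) ^ ij.2 * t) ∂θ) =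
        fun ij : ℕ × ℕ => ww p q ij • ∫ t, F (TT p q ij t) ∂θ := by
      funext ij
      rw [Complex.real_smul]
      unfold ww TT
      push_cast
      rfl
    rw [he]
    exact h
  · rintro G hG ⟨B, hB⟩
    have hB0 : 0 ≤ B := (abs_nonneg _).trans (hB 0)
    -- the coefficients
    set a : ℕ → ℕ → ℝ := fun i j => ww p q (i, j) * ∫ t, G (TT p q (i, j) t) ∂θ with ha
    have hInt : ∀ ij : ℕ × ℕ, Integrable (fun t => G (TT p q ij t)) θ := fun ij =>
      Integrable.of_bound (hG.comp (TT_meas p q ij)).aestronglyMeasurable B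
        (Eventually.of_forall fun t => hB _)
    have hasum : Summable fun ij : ℕ × ℕ => a ij.1 ij.2 := by
      have := (Th_hasSum hp hq θ G hG B hB).summable
      exact this
    have hrow : ∀ i, Summable fun j => a i j := fun i =>
      hasum.prod_factor i
    have hcol : Summable fun i => a i 0 := hasum.comp_injective
      (i := fun i : ℕ => (i, 0)) (fun x y h => (Prod.mk.inj h).1)
    -- the function
    have hGp : Measurable fun t : ℝ => G (p * t) := hG.comp (measurable_const_mul _)
    have hGq : Measurable fun t : ℝ => G (q * t) := hG.comp (measurable_const_mul _)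
    have hGpq : Measurable fun t : ℝ => G (p * q * t) := hG.comp (measurable_const_mul _)
    have hp1 : (1 : ℝ) ≤ p := by exact_mod_cast (by omega : 1 ≤ p)
    have hq1 : (1 : ℝ) ≤ q := by exact_mod_cast (by omega : 1 ≤ q)
    have hF := Th_hasSum hp hq θ (fun t => G t - G (p * t) / p - G (q * t) / q +
      G (p * q * t) / (p * q)) (((hG.sub (hGp.div_const _)).sub (hGq.div_const _)).add
        (hGpq.div_const _)) (B + B + B + B) (by
        intro t
        have h1 := hB t
        have h2 : |G (p * t) / p| ≤ B := by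
          rw [abs_div, abs_of_nonneg (by positivity : (0 : ℝ) ≤ p)]
          exact (div_le_self (abs_nonneg _) hp1).trans (hB _)
        have h3 : |G (q * t) / q| ≤ B := by
          rw [abs_div, abs_of_nonneg (by positivity : (0 : ℝ) ≤ q)]
          exact (div_le_self (abs_nonneg _) hq1).trans (hB _)
        have h4 : |G (p * q * t) / (p * q)| ≤ B := by
          rw [abs_div, abs_of_nonneg (by positivity : (0 : ℝ) ≤ (p : ℝ) * q)]
          exact (div_le_self (abs_nonneg _) (by nlinarith)).trans (hB _)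
        rw [Real.norm_eq_abs]
        rw [abs_le] at *
        constructor <;> linarith [h1.1, h1.2, h2.1, h2.2, h3.1, h3.2, h4.1, h4.2])
    have hterm : ∀ i j : ℕ, ww p q (i, j) • ∫ t, (G (TT p q (i, j) t) - G (p * TT p q (i, j) t) / p -
        G (q * TT p q (i, j) t) / q + G (p * q * TT p q (i, j) t) / (p * q)) ∂θ =
        (a i j - a i (j + 1)) - (a (i + 1) j - a (i + 1) (j + 1)) := by
      intro i j
      have e1 : ∀ t, (p : ℝ) * TT p q (i, j) t = TT p q (i + 1, j) t := by
        intro t; unfold TT; simp only; ring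
      have e2 : ∀ t, (q : ℝ) * TT p q (i, j) t = TT p q (i, j + 1) t := by
        intro t; unfold TT; simp only; ring
      have e3 : ∀ t, (p : ℝ) * q * TT p q (i, j) t = TT p q (i + 1, j + 1) t := by
        intro t; unfold TT; simp only; ring
      simp_rw [e1, e2, e3]
      rw [int4 θ (fun t => G (TT p q (i, j) t)) (fun t => G (TT p q (i + 1, j) t))
        (fun t => G (TT p q (i, j + 1) t)) (fun t => G (TT p q (i + 1, j + 1) t)) p q (p * q)
        (hInt _) (hInt _) (hInt _) (hInt _), smul_eq_mul]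
      simp only [ha]
      have w1 : ww p q (i + 1, j) = ww p q (i, j) / p := by
        unfold ww; simp only [pow_succ]; field_simp
      have w2 : ww p q (i, j + 1) = ww p q (i, j) / q := by
        unfold ww; simp only [pow_succ]; field_simp
      have w3 : ww p q (i + 1, j + 1) = ww p q (i, j) / (p * q) := by
        unfold ww; simp only [pow_succ]; field_simp
      rw [w1, w2, w3]
      ring
    have hF2 : HasSum (fun ij : ℕ × ℕ => (a ij.1 ij.2 - a ij.1 (ij.2 + 1)) -
        (a (ij.1 + 1) ij.2 - a (ij.1 + 1) (ij.2 + 1)))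
        (∫ t, (G t - G (p * t) / p - G (q * t) / q + G (p * q * t) / (p * q)) ∂(Th p q θ)) := by
      have he : (fun ij : ℕ × ℕ => (a ij.1 ij.2 - a ij.1 (ij.2 + 1)) -
        (a (ij.1 + 1) ij.2 - a (ij.1 + 1) (ij.2 + 1))) = fun ij : ℕ × ℕ => ww p q ij •
          ∫ t, (G (TT p q ij t) - G (p * TT p q ij t) / p -
            G (q * TT p q ij t) / q + G (p * q * TT p q ij t) / (p * q)) ∂θ := by
        funext ij
        exact (hterm ij.1 ij.2).symm
      rw [he]
      exact hF
    have hfib : ∀ i : ℕ, HasSum (fun j : ℕ => (a i j - a i (j + 1)) -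
        (a (i + 1) j - a (i + 1) (j + 1))) (a i 0 - a (i + 1) 0) := fun i =>
      (tele (hrow i)).sub (tele (hrow (i + 1)))
    have h1 := hF2.prod_fiberwise hfib
    have h2 := tele hcol
    have h3 := h1.unique h2
    rw [h3]
    simp [ha, ww, TT]

end Pool.Agent.U338.BV
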